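import Mathlib

/-!
# Large subgroups with a linear character which is nontrivial on a central element

For a finite `p`-group `G` and a central element `z ≠ 1` there are a subgroup `B` containing `z`
and a homomorphism from `B` to the group of complex units which is nontrivial on `z`, with
`[G : B]² |Z(G)| ≤ |G|`.
-/

namespace Pool.Agent.Helper42.UP

open Subgroup

/-- `B` carries a linear character which is nontrivial at `z` -/
def Detects {G : Type} [Group G] (B : Subgroup G) (z : G) : Prop :=
  ∃ (hz : z ∈ B) (χ : B →* ℂˣ), χ ⟨z, hz⟩ ≠ 1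

/-- restriction of the character to a smaller subgroup -/
theorem Detects.mono {G : Type} [Group G] {B B' : Subgroup G} {z : G} (h : Detects B z)
    (hle : B' ≤ B) (hz : z ∈ B') : Detects B' z := by
  obtain ⟨hzB, χ, hχ⟩ := h
  exact ⟨hz, χ.comp (Subgroup.inclusion hle), hχ⟩

/-- pull back along a surjection -/
theorem Detects.comap {G H : Type} [Group G] [Group H] (f : G →* H) {B : Subgroup H} {z : G}
    (h : Detects B (f z)) : Detects (B.comap f) z := by
  obtain ⟨hzB, χ, hχ⟩ := h
  refine ⟨hzB, χ.comp (f.subgroupComap B), ?_⟩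
  exact hχ

/-- from a subgroup of a subgroup -/
theorem Detects.map {G : Type} [Group G] {K : Subgroup G} {B : Subgroup K} {z : K}
    (h : Detects B z) : Detects (B.map K.subtype) (z : G) := by
  obtain ⟨hzB, χ, hχ⟩ := h
  let e : B ≃* B.map K.subtype := B.equivMapOfInjective K.subtype K.subtype_injective
  refine ⟨⟨z, hzB, rfl⟩, χ.comp e.symm.toMonoidHom, ?_⟩
  have : e.symm ⟨(z : G), ⟨z, hzB, rfl⟩⟩ = ⟨z, hzB⟩ := by
    rw [MulEquiv.symm_apply_eq]
    rfl
  simpa [this] using hχ

/-- the abelian case -/
theorem detects_top_of_comm {G : Type} [Group G] [Finite G] (hcomm : ∀ a b : G, a * b = b * a)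
    {z : G} (hz : z ≠ 1) : Detects (⊤ : Subgroup G) z := by
  let _ : CommGroup G := { (inferInstance : Group G) with mul_comm := hcomm }
  obtain ⟨χ, hχ⟩ := CommGroup.exists_apply_ne_one_of_hasEnoughRootsOfUnity G ℂ hz
  refine ⟨Subgroup.mem_top z, χ.comp (⊤ : Subgroup G).subtype, ?_⟩
  exact hχ

/-- The group `G` modulo a central subgroup: the centre does not shrink too much. -/
theorem card_center_quotient {G : Type} [Group G] [Finite G] (N : Subgroup G) [N.Normal] : Nat.card (center G) ≤ Nat.card N * Nat.card (center (G ⧸ N)) := by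
  -- the image of the centre lies in the centre
  have h1 : (center G).map (QuotientGroup.mk' N) ≤ center (G ⧸ N) := by
    rintro _ ⟨c, hc, rfl⟩
    rw [Subgroup.mem_center_iff]
    intro g
    obtain ⟨g, rfl⟩ := QuotientGroup.mk'_surjective N g
    rw [← map_mul, ← map_mul, Subgroup.mem_center_iff.mp hc g]
  have h2 : Nat.card ((center G).map (QuotientGroup.mk' N)) ≤ Nat.card (center (G ⧸ N)) :=
    Nat.card_le_card_of_injective (Subgroup.inclusion h1) (Subgroup.inclusion_injective h1)
  -- the kernel of the restriction is `N`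
  let f : center G →* G ⧸ N := (QuotientGroup.mk' N).comp (center G).subtype
  have h3 : Nat.card f.ker * Nat.card f.range = Nat.card (center G) := by
    rw [mul_comm]
    have := f.ker.card_eq_card_quotient_mul_card_subgroup
    rw [this, Nat.card_congr (QuotientGroup.quotientKerEquivRange f).toEquiv]
  have h4 : f.range = (center G).map (QuotientGroup.mk' N) := by
    ext x
    constructor
    · rintro ⟨c, rfl⟩
      exact ⟨c, c.2, rfl⟩
    · rintro ⟨c, hc, rfl⟩
      exact ⟨⟨c, hc⟩, rfl⟩
  have h5 : Nat.card f.ker ≤ Nat.card N := by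
    refine Nat.card_le_card_of_injective (fun x : f.ker => (⟨(x.1 : G), ?_⟩ : N)) ?_
    · have hx := x.2
      rw [MonoidHom.mem_ker] at hx
      exact (QuotientGroup.eq_one_iff _).mp hx
    · intro x y hxy
      apply Subtype.ext
      apply Subtype.ext
      exact congrArg (fun t : N => (t : G)) hxy
  rw [h4] at h3
  calc Nat.card (center G) = Nat.card f.ker * Nat.card ((center G).map (QuotientGroup.mk' N)) :=
        h3.symm
    _ ≤ Nat.card N * Nat.card (center (G ⧸ N)) := Nat.mul_le_mul h5 h2

/-- commutators with an element which is central modulo the centre -/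
def commHom {G : Type} [Group G] (u : G) (hu : ∀ g : G, g * u * g⁻¹ * u⁻¹ ∈ center G) :
    G →* G where
  toFun g := g * u * g⁻¹ * u⁻¹
  map_one' := by simp
  map_mul' g h := by
    have h1 := Subgroup.mem_center_iff.mp (hu h) g
    calc g * h * u * (g * h)⁻¹ * u⁻¹ = g * (h * u * h⁻¹ * u⁻¹) * u * g⁻¹ * u⁻¹ := by group
      _ = (h * u * h⁻¹ * u⁻¹) * g * u * g⁻¹ * u⁻¹ := by rw [h1]
      _ = (h * u * h⁻¹ * u⁻¹) * (g * u * g⁻¹ * u⁻¹) := by group
      _ = (g * u * g⁻¹ * u⁻¹) * (h * u * h⁻¹ * u⁻¹) :=
          (Subgroup.mem_center_iff.mp (hu h) _).symm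

theorem exists_detects (p : ℕ) [hp : Fact p.Prime] (n : ℕ) : ∀ (G : Type) [Group G] [Finite G],
    Nat.card G ≤ n → IsPGroup p G → ∀ z ∈ center G, z ≠ 1 →
    ∃ B : Subgroup G, Detects B z ∧ B.index ^ 2 * Nat.card (center G) ≤ Nat.card G := by
  induction n with
  | zero =>
    intro G _ _ hn
    exact absurd hn (by have := Nat.card_pos (α := G); omega)
  | succ n ih =>
    intro G _ _ hn hG z hz hz1
    by_cases hcomm : ∀ a b : G, a * b = b * a
    · refine ⟨⊤, detects_top_of_comm hcomm hz1, ?_⟩
      have : center G = ⊤ := by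
        rw [eq_top_iff]
        intro g _
        rw [Subgroup.mem_center_iff]
        intro h
        exact hcomm h g
      rw [this]
      simp
    -- case 1: a nontrivial central subgroup which avoids `z`
    by_cases hcase : ∃ N : Subgroup G, N ≤ center G ∧ N ≠ ⊥ ∧ z ∉ N
    · obtain ⟨N, hNc, hN1, hzN⟩ := hcase
      have : N.Normal := ⟨fun x hx g => by
        have := Subgroup.mem_center_iff.mp (hNc hx) g
        rw [this]
        simpa using hx⟩
      have hNcard : 1 < Nat.card N := (N.one_lt_card_iff_ne_bot).mpr hN1
      have hq : Nat.card G = Nat.card (G ⧸ N) * Nat.card N :=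
        N.card_eq_card_quotient_mul_card_subgroup
      have hlt : Nat.card (G ⧸ N) < Nat.card G := by
        rw [hq]
        have : 0 < Nat.card (G ⧸ N) := Nat.card_pos
        nlinarith
      have hzq : (QuotientGroup.mk' N z) ∈ center (G ⧸ N) := by
        rw [Subgroup.mem_center_iff]
        intro g
        obtain ⟨g, rfl⟩ := QuotientGroup.mk'_surjective N g
        rw [← map_mul, ← map_mul, Subgroup.mem_center_iff.mp hz g]
      have hzq1 : (QuotientGroup.mk' N z) ≠ 1 := by
        intro h
        exact hzN ((QuotientGroup.eq_one_iff _).mp h)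
      obtain ⟨B, hB, hBi⟩ := ih (G ⧸ N) (by omega) (hG.to_quotient N) _ hzq hzq1
      refine ⟨B.comap (QuotientGroup.mk' N), Detects.comap _ hB, ?_⟩
      rw [Subgroup.index_comap_of_surjective _ (QuotientGroup.mk'_surjective N)]
      have hc := card_center_quotient N
      calc B.index ^ 2 * Nat.card (center G)
          ≤ B.index ^ 2 * (Nat.card N * Nat.card (center (G ⧸ N))) := Nat.mul_le_mul_left _ hc
        _ = (B.index ^ 2 * Nat.card (center (G ⧸ N))) * Nat.card N := by ring
        _ ≤ Nat.card (G ⧸ N) * Nat.card N := Nat.mul_le_mul_right _ hBi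
        _ = Nat.card G := hq.symm
    -- case 2: every nontrivial central subgroup contains `z`
    push Not at hcase
    -- an element of the second centre
    have : Nontrivial (G ⧸ center G) := by
      rw [← not_subsingleton_iff_nontrivial]
      intro hs
      apply hcomm
      intro a b
      have ha : a ∈ center G := by
        rw [← QuotientGroup.eq_one_iff]
        exact Subsingleton.elim _ _
      exact (Subgroup.mem_center_iff.mp ha b).symm
    have := (hG.to_quotient (center G)).center_nontrivial
    have hpc : IsPGroup p (center (G ⧸ center G)) := (hG.to_quotient (center G)).to_subgroup _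
    have hdvd : p ∣ Nat.card (center (G ⧸ center G)) := by
      rcases hpc.card_eq_or_dvd with h | h
      · have := (Finite.one_lt_card : 1 < Nat.card (center (G ⧸ center G)))
        omega
      · exact h
    obtain ⟨ū, hū⟩ := exists_prime_orderOf_dvd_card' p hdvd
    obtain ⟨u, hu⟩ := QuotientGroup.mk'_surjective (center G) (ū : G ⧸ center G)
    have huZ : u ∉ center G := by
      intro h
      have h1 : (ū : G ⧸ center G) = 1 := by
        rw [← hu]
        exact (QuotientGroup.eq_one_iff _).mpr h
      have h2 : ū = 1 := Subtype.ext h1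
      rw [h2, orderOf_one] at hū
      exact hp.out.one_lt.ne hū
    have hup : u ^ p ∈ center G := by
      rw [← QuotientGroup.eq_one_iff]
      have h1 : ū ^ p = 1 := by rw [← hū]; exact pow_orderOf_eq_one ū
      have h2 : (ū : G ⧸ center G) ^ p = 1 := by
        have := congrArg (fun t : center (G ⧸ center G) => (t : G ⧸ center G)) h1
        simpa using this
      rw [← hu] at h2
      simpa using h2
    have hcom : ∀ g : G, g * u * g⁻¹ * u⁻¹ ∈ center G := by
      intro g
      rw [← QuotientGroup.eq_one_iff]
      have h1 := Subgroup.mem_center_iff.mp ū.2 (QuotientGroup.mk' (center G) g)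
      rw [← hu] at h1
      have h2 : (QuotientGroup.mk' (center G)) (g * u * g⁻¹ * u⁻¹) = 1 := by
        rw [map_mul, map_mul, map_mul, h1, map_inv, map_inv]
        group
      exact h2
    set φ := commHom u hcom with hφ
    -- the range of `φ` has order `p`
    have hφpow : ∀ g, φ g ^ p = 1 := by
      intro g
      have hc := hcom g
      set c : G := g * u * g⁻¹ * u⁻¹ with hcdef
      have h1 : c * u = g * u * g⁻¹ := by rw [hcdef]; group
      have h2 : (c * u) ^ p = c ^ p * u ^ p := by
        apply Commute.mul_pow
        exact (Subgroup.mem_center_iff.mp hc u).symm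
      have h3 : (g * u * g⁻¹) ^ p = u ^ p := by
        rw [conj_pow, Subgroup.mem_center_iff.mp hup g]
        group
      rw [h1, h3] at h2
      have h4 : c ^ p = 1 := by
        have := congrArg (fun t => t * (u ^ p)⁻¹) h2
        simpa using this.symm
      exact h4
    have hφZ : ∀ g, φ g ∈ center G := hcom
    have hzy : ∀ g, φ g ≠ 1 → z ∈ Subgroup.zpowers (φ g) := by
      intro g hg
      apply hcase _ (by rw [Subgroup.zpowers_le]; exact hφZ g)
      rw [Ne, Subgroup.zpowers_eq_bot]
      exact hg
    have hne : ∃ g, φ g ≠ 1 := by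
      by_contra hall
      push Not at hall
      apply huZ
      rw [Subgroup.mem_center_iff]
      intro g
      have h1 : g * u * g⁻¹ * u⁻¹ = 1 := hall g
      calc g * u = (g * u * g⁻¹ * u⁻¹) * u * g := by group
        _ = u * g := by rw [h1, one_mul]
    obtain ⟨g₀, hg₀⟩ := hne
    have hoφ : ∀ g, φ g ≠ 1 → orderOf (φ g) = p := fun g hg =>
      orderOf_eq_prime (hφpow g) hg
    have hzp : orderOf z = p := by
      apply orderOf_eq_prime _ hz1
      obtain ⟨k, hk⟩ := Subgroup.mem_zpowers_iff.mp (hzy g₀ hg₀)
      rw [← hk, ← zpow_natCast, ← zpow_mul, mul_comm, zpow_mul, zpow_natCast, hφpow g₀, one_zpow]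
    have hrange : φ.range ≤ Subgroup.zpowers z := by
      rintro _ ⟨g, rfl⟩
      by_cases hg : φ g = 1
      · rw [hg]; exact Subgroup.one_mem _
      · have hle : Subgroup.zpowers z ≤ Subgroup.zpowers (φ g) := by
          rw [Subgroup.zpowers_le]; exact hzy g hg
        have hcard : Nat.card (Subgroup.zpowers z) = Nat.card (Subgroup.zpowers (φ g)) := by
          rw [Nat.card_zpowers, Nat.card_zpowers, hzp, hoφ g hg]
        rw [Subgroup.eq_of_le_of_card_ge hle hcard.ge]
        exact Subgroup.mem_zpowers _
    have hrc : Nat.card φ.range = p := by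
      have h1 : Nat.card φ.range ∣ Nat.card (Subgroup.zpowers z) := Subgroup.card_dvd_of_le hrange
      rw [Nat.card_zpowers, hzp] at h1
      rcases (Nat.dvd_prime hp.out).mp h1 with h | h
      · exfalso
        have : φ.range = ⊥ := Subgroup.card_eq_one.mp h
        apply hg₀
        have h2 : φ g₀ ∈ φ.range := ⟨g₀, rfl⟩
        rw [this] at h2
        exact Subgroup.mem_bot.mp h2
      · exact h
    set K : Subgroup G := φ.ker with hK
    have hKi : K.index = p := by rw [hK, Subgroup.index_ker]; exact hrc
    have hKcard : Nat.card G = Nat.card K * p := by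
      rw [← hKi]; exact (K.card_mul_index).symm
    have hZK : center G ≤ K := by
      intro c hc
      rw [hK, MonoidHom.mem_ker]
      show c * u * c⁻¹ * u⁻¹ = 1
      rw [← Subgroup.mem_center_iff.mp hc u]
      group
    have huK : u ∈ K := by
      rw [hK, MonoidHom.mem_ker]
      show u * u * u⁻¹ * u⁻¹ = 1
      group
    have huc : (⟨u, huK⟩ : K) ∈ center K := by
      rw [Subgroup.mem_center_iff]
      rintro ⟨g, hg⟩
      apply Subtype.ext
      rw [hK, MonoidHom.mem_ker] at hg
      have h1 : g * u * g⁻¹ * u⁻¹ = 1 := hg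
      show g * u = u * g
      calc g * u = (g * u * g⁻¹ * u⁻¹) * u * g := by group
        _ = u * g := by rw [h1, one_mul]
    have hzc : (⟨z, hZK hz⟩ : K) ∈ center K := by
      rw [Subgroup.mem_center_iff]
      rintro ⟨g, hg⟩
      exact Subtype.ext (Subgroup.mem_center_iff.mp hz g)
    have hCle : (center G).subgroupOf K ≤ center K := by
      intro c hc
      rw [Subgroup.mem_subgroupOf] at hc
      rw [Subgroup.mem_center_iff]
      intro g
      exact Subtype.ext (Subgroup.mem_center_iff.mp hc g)
    have hCcard : Nat.card ((center G).subgroupOf K) = Nat.card (center G) :=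
      Nat.card_congr (Subgroup.subgroupOfEquivOfLe hZK).toEquiv
    have hKp : IsPGroup p K := hG.to_subgroup K
    have hmain : p * Nat.card (center G) ≤ Nat.card (center K) := by
      obtain ⟨a, ha⟩ := (IsPGroup.iff_card).mp (hKp.to_subgroup ((center G).subgroupOf K))
      obtain ⟨b, hb⟩ := (IsPGroup.iff_card).mp (hKp.to_subgroup (center K))
      have hlt : Nat.card ((center G).subgroupOf K) < Nat.card (center K) := by
        apply lt_of_le_of_ne
        · exact Nat.card_le_card_of_injective _ (Subgroup.inclusion_injective hCle)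
        · intro heq
          have h1 : (center G).subgroupOf K = center K :=
            Subgroup.eq_of_le_of_card_ge hCle heq.ge
          apply huZ
          rw [← h1, Subgroup.mem_subgroupOf] at huc
          exact huc
      rw [ha, hb] at hlt
      have hab : a < b := (Nat.pow_lt_pow_iff_right hp.out.one_lt).mp hlt
      rw [← hCcard, ha, hb]
      calc p * p ^ a = p ^ (a + 1) := by ring
        _ ≤ p ^ b := Nat.pow_le_pow_right hp.out.pos hab
    have hKn : Nat.card K ≤ n := by
      have h1 : 0 < Nat.card K := Nat.card_pos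
      have h2 := hp.out.two_le
      have h3 : Nat.card K * 2 ≤ Nat.card K * p := Nat.mul_le_mul_left _ h2
      omega
    obtain ⟨B, hB, hBi⟩ := ih K hKn hKp ⟨z, hZK hz⟩ hzc (by
      intro h
      exact hz1 (congrArg (fun t : K => (t : G)) h))
    refine ⟨B.map K.subtype, hB.map, ?_⟩
    rw [Subgroup.index_map_subtype, hKi]
    calc (B.index * p) ^ 2 * Nat.card (center G)
        = p * (B.index ^ 2 * (p * Nat.card (center G))) := by ring
      _ ≤ p * (B.index ^ 2 * Nat.card (center K)) :=
          Nat.mul_le_mul_left _ (Nat.mul_le_mul_left _ hmain)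
      _ ≤ p * Nat.card K := Nat.mul_le_mul_left _ hBi
      _ = Nat.card G := by rw [hKcard, mul_comm]

end Pool.Agent.Helper42.UP
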