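import Mathlib

/-!
# A quadratic lower bound for universal `p`-groups

Groups of class two given by strictly triangular bilinear maps are counted.
-/

namespace Pool.Agent.Helper42.UP

/-- the central extension of `(ℤ/p)^d` by `(ℤ/p)^k` with the bilinear cocycle `β` -/
@[ext]
structure Cl {p k d : ℕ} (β : Fin d → Fin d → Fin k → ZMod p) where
  a : Fin k → ZMod p
  x : Fin d → ZMod p

namespace Cl

variable {p k d : ℕ} (β : Fin d → Fin d → Fin k → ZMod p)

/-- the bilinear map -/
def form (x y : Fin d → ZMod p) : Fin k → ZMod p := fun l => ∑ i, ∑ j, x i * y j * β i j l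

theorem form_add_left (x y z : Fin d → ZMod p) : form β (x + y) z = form β x z + form β y z := by
  funext l
  simp only [form, Pi.add_apply, add_mul, Finset.sum_add_distrib]

theorem form_add_right (x y z : Fin d → ZMod p) : form β x (y + z) = form β x y + form β x z := by
  funext l
  simp only [form, Pi.add_apply, mul_add, add_mul, Finset.sum_add_distrib]

theorem form_neg_right (x y : Fin d → ZMod p) : form β x (-y) = -form β x y := by
  funext l
  simp only [form, Pi.neg_apply, mul_neg, neg_mul, Finset.sum_neg_distrib]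

theorem form_neg_left (x y : Fin d → ZMod p) : form β (-x) y = -form β x y := by
  funext l
  simp only [form, Pi.neg_apply, neg_mul, Finset.sum_neg_distrib]

theorem form_zero_left (y : Fin d → ZMod p) : form β 0 y = 0 := by
  funext l
  simp [form]

theorem form_zero_right (x : Fin d → ZMod p) : form β x 0 = 0 := by
  funext l
  simp [form]

theorem form_single (i j : Fin d) : form β (Pi.single i 1) (Pi.single j 1) = β i j := by
  funext l
  simp only [form]
  rw [Finset.sum_eq_single i, Finset.sum_eq_single j]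
  · simp
  · intro b _ hb
    simp [Pi.single_eq_of_ne hb]
  · intro h
    exact absurd (Finset.mem_univ _) h
  · intro b _ hb
    simp [Pi.single_eq_of_ne hb]
  · intro h
    exact absurd (Finset.mem_univ _) h

instance : Mul (Cl β) := ⟨fun g h => ⟨g.a + h.a + form β g.x h.x, g.x + h.x⟩⟩
instance : One (Cl β) := ⟨⟨0, 0⟩⟩
instance : Inv (Cl β) := ⟨fun g => ⟨-g.a + form β g.x g.x, -g.x⟩⟩

theorem mul_def (g h : Cl β) : g * h = ⟨g.a + h.a + form β g.x h.x, g.x + h.x⟩ := rfl
theorem one_def : (1 : Cl β) = ⟨0, 0⟩ := rfl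
theorem inv_def (g : Cl β) : g⁻¹ = ⟨-g.a + form β g.x g.x, -g.x⟩ := rfl

instance : Group (Cl β) where
  mul_assoc g h i := by
    ext1
    · simp only [mul_def, form_add_left, form_add_right]
      abel
    · simp only [mul_def]
      abel
  one_mul g := by
    ext1
    · simp only [mul_def, one_def, form_zero_left]
      abel
    · simp only [mul_def, one_def, zero_add]
  mul_one g := by
    ext1
    · simp only [mul_def, one_def, form_zero_right]
      abel
    · simp only [mul_def, one_def, add_zero]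
  inv_mul_cancel g := by
    ext1
    · simp only [mul_def, one_def, inv_def, form_neg_left]
      abel
    · simp only [mul_def, one_def, inv_def, neg_add_cancel]

/-- the underlying set -/
def equivProd : Cl β ≃ (Fin k → ZMod p) × (Fin d → ZMod p) where
  toFun g := (g.a, g.x)
  invFun t := ⟨t.1, t.2⟩
  left_inv _ := rfl
  right_inv _ := rfl

theorem card : Nat.card (Cl β) = p ^ (k + d) := by
  rw [Nat.card_congr (equivProd β), Nat.card_prod, Nat.card_fun, Nat.card_fun]
  simp [pow_add]

end Cl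

/-- triangular bilinear maps -/
def tri {p k d : ℕ} (γ : (Σ j : Fin d, Fin j) → Fin k → ZMod p) :
    Fin d → Fin d → Fin k → ZMod p :=
  fun i j => if h : (i : ℕ) < j then γ ⟨j, ⟨i, h⟩⟩ else 0

/-- **Lower bound.** -/
theorem lower (p : ℕ) [hp : Fact p.Prime] (k d m : ℕ) (U : Type) [Group U]
    (hU : Nat.card U = p ^ m)
    (h : ∀ (P : Type) [Group P], Nat.card P = p ^ (k + d) →
      ∃ φ : P →* U, Function.Injective φ) :
    k * (d * (d - 1) / 2) ≤ m * (k + d) := by
  classical
  have hUf : Finite U := Nat.finite_of_card_ne_zero (by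
    rw [hU]; exact pow_ne_zero _ hp.out.ne_zero)
  have hex : ∀ γ : (Σ j : Fin d, Fin j) → Fin k → ZMod p,
      ∃ φ : Cl (tri γ) →* U, Function.Injective φ := fun γ => h _ (Cl.card (tri γ))
  choose φ hφ using hex
  let t : ((Σ j : Fin d, Fin j) → Fin k → ZMod p) → (Fin d → U) × (Fin k → U) := fun γ =>
    (fun i => φ γ ⟨0, Pi.single i 1⟩, fun l => φ γ ⟨Pi.single l 1, 0⟩)
  have ht : Function.Injective t := by
    intro γ γ' heq
    have h1 : ∀ i, φ γ ⟨0, Pi.single i 1⟩ = φ γ' ⟨0, Pi.single i 1⟩ := fun i =>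
      congrFun (congrArg Prod.fst heq) i
    have h2 : ∀ l, φ γ ⟨Pi.single l 1, 0⟩ = φ γ' ⟨Pi.single l 1, 0⟩ := fun l =>
      congrFun (congrArg Prod.snd heq) l
    -- the two maps agree on the central part
    have hadd : ∀ (γ : (Σ j : Fin d, Fin j) → Fin k → ZMod p) (c c' : Fin k → ZMod p),
        φ γ ⟨c + c', 0⟩ = φ γ ⟨c, 0⟩ * φ γ ⟨c', 0⟩ := by
      intro γ c c'
      rw [← map_mul]
      congr 1
      rw [Cl.mul_def]
      ext1
      · simp [Cl.form_zero_left]
      · simp
    have hzero : ∀ (γ : (Σ j : Fin d, Fin j) → Fin k → ZMod p),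
        φ γ ⟨(0 : Fin k → ZMod p), 0⟩ = 1 := fun γ => map_one (φ γ)
    let H : AddSubmonoid (Fin k → ZMod p) :=
      { carrier := {c | φ γ ⟨c, 0⟩ = φ γ' ⟨c, 0⟩}
        zero_mem' := by
          show φ γ ⟨0, 0⟩ = φ γ' ⟨0, 0⟩
          rw [hzero, hzero]
        add_mem' := by
          intro c c' hc hc'
          show φ γ ⟨c + c', 0⟩ = φ γ' ⟨c + c', 0⟩
          rw [hadd, hadd]
          have e1 : φ γ ⟨c, 0⟩ = φ γ' ⟨c, 0⟩ := hc
          have e2 : φ γ ⟨c', 0⟩ = φ γ' ⟨c', 0⟩ := hc'
          rw [e1, e2] }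
    have hH : ∀ c, c ∈ H := by
      intro c
      rw [← Finset.univ_sum_single c]
      apply AddSubmonoid.sum_mem
      intro l _
      have h3 : (Pi.single l (c l) : Fin k → ZMod p) = (c l).val • Pi.single l 1 := by
        rw [← Pi.single_smul]
        congr 1
        rw [nsmul_one, ZMod.natCast_val, ZMod.cast_id', id]
      rw [h3]
      exact AddSubmonoid.nsmul_mem _ (h2 l) _
    -- commutators
    have hcomm : ∀ (γ : (Σ j : Fin d, Fin j) → Fin k → ZMod p) (j : Fin d) (i : Fin j),
        φ γ ⟨0, Pi.single ⟨i, i.2.trans j.2⟩ 1⟩ * φ γ ⟨0, Pi.single j 1⟩ =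
          φ γ ⟨γ ⟨j, i⟩, 0⟩ * (φ γ ⟨0, Pi.single j 1⟩ * φ γ ⟨0, Pi.single ⟨i, i.2.trans j.2⟩ 1⟩) := by
      intro γ j i
      rw [← map_mul, ← map_mul, ← map_mul]
      congr 1
      simp only [Cl.mul_def, Cl.form_single, Cl.form_zero_left]
      have e1 : tri γ ⟨i, i.2.trans j.2⟩ j = γ ⟨j, i⟩ := by
        unfold tri
        rw [dif_pos i.2]
      have e2 : tri γ j ⟨i, i.2.trans j.2⟩ = 0 := by
        unfold tri
        rw [dif_neg]
        exact not_lt.mpr i.2.le
      rw [e1, e2]
      ext1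
      · simp
      · simp [add_comm]
    funext ⟨j, i⟩
    have c1 := hcomm γ j i
    have c2 := hcomm γ' j i
    rw [h1, h1] at c1
    rw [c2] at c1
    have c3 : φ γ' ⟨γ' ⟨j, i⟩, 0⟩ = φ γ ⟨γ ⟨j, i⟩, 0⟩ := mul_right_cancel c1
    have c4 : φ γ ⟨γ' ⟨j, i⟩, 0⟩ = φ γ' ⟨γ' ⟨j, i⟩, 0⟩ := hH _
    rw [← c4] at c3
    have c5 := hφ γ c3
    exact (congrArg Cl.a c5).symm
  have hcard := Nat.card_le_card_of_injective t ht
  rw [Nat.card_prod, Nat.card_fun, Nat.card_fun, Nat.card_fun, Nat.card_fun] at hcard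
  have hsig : Nat.card (Σ j : Fin d, Fin j) = d * (d - 1) / 2 := by
    rw [Nat.card_eq_fintype_card, Fintype.card_sigma]
    simp only [Fintype.card_fin]
    rw [Fin.sum_univ_eq_sum_range (fun j => j) d, Finset.sum_range_id]
  rw [hsig, hU] at hcard
  simp only [Nat.card_eq_fintype_card, ZMod.card, Fintype.card_fin] at hcard
  rw [← pow_mul, ← pow_mul, ← pow_mul, ← pow_add] at hcard
  have := (Nat.pow_le_pow_iff_right hp.out.one_lt).mp hcard
  calc k * (d * (d - 1) / 2) ≤ m * d + m * k := this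
    _ = m * (k + d) := by ring

end Pool.Agent.Helper42.UP
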