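import Pool.Agent.Helper42.UP.Index

/-!
# A small universal group for the groups of order `p ^ n`
-/

namespace Pool.Agent.Helper42.UP

open Subgroup Equiv

/-- The wreath product of `C` with the symmetric group on `X`. -/
abbrev Wr (C X : Type) [Group C] : Type := (X → C) ⋊[mulAutArrow (G := Perm X) (A := X)] Perm X

instance (C X : Type) [Group C] [Finite C] [Finite X] : Finite (Wr C X) :=
  Finite.of_equiv _ (SemidirectProduct.equivProd (φ := mulAutArrow (G := Perm X) (A := X))
    (N := X → C)).symm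

theorem card_Wr (C : Type) [Group C] [Finite C] (N : ℕ) :
    Nat.card (Wr C (Fin N)) = Nat.card C ^ N * N.factorial := by
  rw [Nat.card_congr (SemidirectProduct.equivProd
    (φ := mulAutArrow (G := Perm (Fin N)) (A := Fin N)) (N := Fin N → C)), Nat.card_prod,
    Nat.card_fun, Nat.card_perm]
  simp

section induced

variable {P : Type} [Group P] {B : Subgroup P} {C X : Type} [Group C] (χ : B →* C)
  (e : P ⧸ B ≃ X)

theorem mem_aux (g : P) (y : P ⧸ B) : (y.out)⁻¹ * g * (g⁻¹ • y).out ∈ B := by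
  have h : ((y.out : P) : P ⧸ B) = ((g * (g⁻¹ • y).out : P) : P ⧸ B) := by
    have h1 : ((g * (g⁻¹ • y).out : P) : P ⧸ B) = g • (((g⁻¹ • y).out : P) : P ⧸ B) := rfl
    rw [h1, QuotientGroup.out_eq', QuotientGroup.out_eq', smul_inv_smul]
  rw [mul_assoc]
  exact QuotientGroup.eq.mp h

/-- the monomial representation induced by a character of a subgroup -/
noncomputable def ind : P →* Wr C X where
  toFun g := ⟨fun y => χ ⟨((e.symm y).out)⁻¹ * g * (g⁻¹ • (e.symm y)).out, mem_aux g _⟩,
    { toFun := fun y => e (g • e.symm y)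
      invFun := fun y => e (g⁻¹ • e.symm y)
      left_inv := fun y => by simp
      right_inv := fun y => by simp }⟩
  map_one' := by
    apply SemidirectProduct.ext
    · funext y
      simp only [SemidirectProduct.one_left, Pi.one_apply]
      rw [← map_one χ]
      congr 1
      apply Subtype.ext
      simp
    · ext y
      simp
  map_mul' g h := by
    apply SemidirectProduct.ext
    · funext y
      simp only [SemidirectProduct.mul_left, Pi.mul_apply]
      have h0 : ∀ (σ : Perm X) (F : X → C), (mulAutArrow σ) F y = F (σ⁻¹ y) := fun _ _ => rfl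
      rw [h0]
      have h1 : ({ toFun := fun y => e (g • e.symm y)
                   invFun := fun y => e (g⁻¹ • e.symm y)
                   left_inv := fun y => by simp
                   right_inv := fun y => by simp } : Perm X)⁻¹ y = e (g⁻¹ • e.symm y) := rfl
      rw [h1, ← map_mul]
      congr 1
      apply Subtype.ext
      simp only [Subgroup.coe_mul, Equiv.symm_apply_apply]
      have h2 : (g * h)⁻¹ • e.symm y = h⁻¹ • g⁻¹ • e.symm y := by
        rw [mul_inv_rev, mul_smul]
      rw [h2]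
      group
    · ext y
      simp [mul_smul]

theorem ind_ne_one {z : P} (hz : z ∈ B) (hzc : z ∈ center P) (hχ : χ ⟨z, hz⟩ ≠ 1) :
    ind χ e z ≠ 1 := by
  intro h
  have h1 := congrArg (fun t : Wr C X => t.left (e ((1 : P) : P ⧸ B))) h
  have h2 : (ind χ e z).left (e ((1 : P) : P ⧸ B)) =
      χ ⟨(((1 : P) : P ⧸ B).out)⁻¹ * z * (z⁻¹ • ((1 : P) : P ⧸ B)).out, mem_aux z _⟩ := by
    show χ _ = _
    congr 1
    apply Subtype.ext
    simp
  have h3 : z⁻¹ • ((1 : P) : P ⧸ B) = ((1 : P) : P ⧸ B) := by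
    show (((z⁻¹ * 1 : P)) : P ⧸ B) = ((1 : P) : P ⧸ B)
    rw [QuotientGroup.eq]
    simpa using hz
  simp only [h2] at h1
  apply hχ
  have h5 : χ ⟨z, hz⟩ =
      χ ⟨(((1 : P) : P ⧸ B).out)⁻¹ * z * (z⁻¹ • ((1 : P) : P ⧸ B)).out, mem_aux z _⟩ := by
    congr 1
    apply Subtype.ext
    show z = (((1 : P) : P ⧸ B).out)⁻¹ * z * (z⁻¹ • ((1 : P) : P ⧸ B)).out
    rw [h3]
    have h4 := Subgroup.mem_center_iff.mp hzc (((1 : P) : P ⧸ B).out)⁻¹
    rw [h4]
    group
  exact h5.trans h1

end induced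

/-- A homomorphism from a `p`-group to a finite group `W` has a copy with values in a fixed Sylow
subgroup. -/
theorem exists_to_sylow (p : ℕ) [Fact p.Prime] {P W : Type} [Group P] [Group W] [Finite W]
    (hP : IsPGroup p P) (S : Sylow p W) (f : P →* W) : ∃ f' : P →* S, f'.ker = f.ker := by
  have h1 : IsPGroup p f.range := by
    rw [MonoidHom.range_eq_map]
    exact IsPGroup.map (H := ⊤) (hP.to_subgroup ⊤) f
  obtain ⟨Q, hQ⟩ := h1.exists_le_sylow
  let g : P →* Q := f.codRestrict (Q : Subgroup W) (fun x => hQ ⟨x, rfl⟩)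
  refine ⟨(Q.equiv S).toMonoidHom.comp g, ?_⟩
  ext x
  simp only [MonoidHom.mem_ker, MonoidHom.comp_apply]
  have h2 : (Q.equiv S).toMonoidHom (g x) = 1 ↔ g x = 1 := by
    show (Q.equiv S) (g x) = 1 ↔ g x = 1
    exact (Q.equiv S).map_eq_one_iff
  rw [h2]
  constructor
  · intro h
    exact congrArg (fun t : Q => (t : W)) h
  · intro h
    exact Subtype.ext h


/-- Every central element `z ≠ 1` of a group of order `p ^ n` is detected in the wreath product. -/
theorem exists_hom (p : ℕ) [hp : Fact p.Prime] {n h : ℕ} (hh : h = (n - 1) / 2) (P : Type)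
    [Group P] (hP : Nat.card P = p ^ n) {z : P} (hz : z ∈ center P) (hz1 : z ≠ 1)
    (hzp : z ^ p = 1) (S : Sylow p (Wr (rootsOfUnity (p ^ n) ℂ) (Fin (p ^ h)))) :
    ∃ f : P →* S, f z ≠ 1 := by
  have hPf : Finite P := Nat.finite_of_card_ne_zero (by
    rw [hP]; exact pow_ne_zero _ hp.out.ne_zero)
  have hPp : IsPGroup p P := IsPGroup.of_card hP
  obtain ⟨B, hB, hBi⟩ := exists_detects p (Nat.card P) P le_rfl hPp z hz hz1
  -- the index of `B`
  obtain ⟨j, hj⟩ := hPp.index B
  have hPn : Nontrivial P := ⟨z, 1, hz1⟩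
  have hn : 0 < n := by
    rcases Nat.eq_zero_or_pos n with h | h
    · rw [h, pow_zero] at hP
      have := Finite.one_lt_card (α := P)
      omega
    · exact h
  obtain ⟨k, hk0, hk⟩ := IsPGroup.card_center_eq_prime_pow hP hn
  have hjn : 2 * j + 1 ≤ n := by
    rw [hj, hk, hP, ← pow_mul, ← pow_add] at hBi
    have := (Nat.pow_le_pow_iff_right hp.out.one_lt).mp hBi
    omega
  have hjh : j ≤ h := by omega
  have hhn : h + 1 ≤ n := by omega
  -- a subgroup of index exactly `p ^ h` which contains `z`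
  obtain ⟨hzB, χ, hχ⟩ := hB
  have hBcard : Nat.card B = p ^ (n - j) := by
    have h1 := B.card_mul_index
    rw [hj, hP] at h1
    have h2 : p ^ n = p ^ (n - j) * p ^ j := by rw [← pow_add]; congr 1; omega
    rw [h2] at h1
    exact Nat.eq_of_mul_eq_mul_right (pow_pos hp.out.pos j) h1
  have hzo : orderOf (⟨z, hzB⟩ : B) = p := by
    apply orderOf_eq_prime
    · exact Subtype.ext hzp
    · intro h0
      exact hz1 (congrArg (fun t : B => (t : P)) h0)
  obtain ⟨B₁, hB₁, hzB₁⟩ := Sylow.exists_subgroup_card_pow_prime_le p (n := 1) (m := n - h)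
    (G := B) (by rw [hBcard]; exact pow_dvd_pow _ (by omega))
    (Subgroup.zpowers (⟨z, hzB⟩ : B)) (by rw [Nat.card_zpowers, hzo, pow_one]) (by omega)
  have hzB₁' : (⟨z, hzB⟩ : B) ∈ B₁ := hzB₁ (Subgroup.mem_zpowers _)
  set B₂ : Subgroup P := B₁.map B.subtype with hB₂
  have hB₂le : B₂ ≤ B := Subgroup.map_subtype_le B₁
  have hzB₂ : z ∈ B₂ := ⟨⟨z, hzB⟩, hzB₁', rfl⟩
  have hdet : Detects B₂ z := Detects.mono ⟨hzB, χ, hχ⟩ hB₂le hzB₂
  obtain ⟨_, χ₂, hχ₂⟩ := hdet
  have hB₂card : Nat.card B₂ = p ^ (n - h) := by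
    rw [← hB₁]
    exact (Nat.card_congr (B₁.equivMapOfInjective B.subtype B.subtype_injective).toEquiv).symm
  have hind : Nat.card (P ⧸ B₂) = p ^ h := by
    have h1 := B₂.card_mul_index
    rw [hB₂card, hP] at h1
    have h2 : p ^ n = p ^ (n - h) * p ^ h := by rw [← pow_add]; congr 1; omega
    rw [h2] at h1
    exact Nat.eq_of_mul_eq_mul_left (pow_pos hp.out.pos _) h1
  have e : P ⧸ B₂ ≃ Fin (p ^ h) := Finite.equivFinOfCardEq hind
  -- the values of the character are roots of unity of order `p ^ n`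
  have hval : ∀ b : B₂, χ₂ b ∈ rootsOfUnity (p ^ n) ℂ := by
    intro b
    rw [mem_rootsOfUnity, ← map_pow]
    have : b ^ p ^ n = 1 := by
      apply Subtype.ext
      show (b : P) ^ p ^ n = 1
      rw [← hP]
      exact pow_card_eq_one'
    rw [this, map_one]
  let χ₃ : B₂ →* rootsOfUnity (p ^ n) ℂ := χ₂.codRestrict _ hval
  have hχ₃ : χ₃ ⟨z, hzB₂⟩ ≠ 1 := by
    intro h0
    apply hχ₂
    exact congrArg (fun t : rootsOfUnity (p ^ n) ℂ => (t : ℂˣ)) h0
  have hind1 := ind_ne_one χ₃ e hzB₂ hz hχ₃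
  have hfin : Finite (rootsOfUnity (p ^ n) ℂ) := by
    have : NeZero (p ^ n) := ⟨pow_ne_zero _ hp.out.ne_zero⟩
    infer_instance
  obtain ⟨f, hf⟩ := exists_to_sylow p hPp S (ind χ₃ e)
  refine ⟨f, fun h0 => hind1 ?_⟩
  have : z ∈ f.ker := h0
  rw [hf] at this
  exact this

/-- A nontrivial normal subgroup of a finite `p`-group contains a central element of order `p`. -/
theorem exists_central (p : ℕ) [hp : Fact p.Prime] {P : Type} [Group P] [Finite P]
    (hP : IsPGroup p P) (K : Subgroup P) [K.Normal] (hK : K ≠ ⊥) :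
    ∃ z ∈ K, z ∈ center P ∧ z ≠ 1 ∧ z ^ p = 1 := by
  have h1 : p ∣ Nat.card K := by
    rcases (hP.to_subgroup K).card_eq_or_dvd with h | h
    · exact absurd (Subgroup.card_eq_one.mp h) hK
    · exact h
  obtain ⟨b, hb, hb1⟩ := (hP.of_equiv ConjAct.toConjAct
    ).exists_fixed_point_of_prime_dvd_card_of_fixed_point K h1
    (a := (1 : K)) (fun g => smul_one g)
  have hbc : (b : P) ∈ center P := by
    rw [Subgroup.mem_center_iff]
    intro g
    have h2 := hb (ConjAct.toConjAct g)
    have h3 : ((ConjAct.toConjAct g • b : K) : P) = g * b * g⁻¹ := by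
      rw [ConjAct.Subgroup.val_conj_smul, ConjAct.toConjAct_smul]
    rw [h2] at h3
    calc g * (b : P) = (g * b * g⁻¹) * g := by group
      _ = b * g := by rw [← h3]
  have hb1' : (b : P) ≠ 1 := fun h => hb1 (Subtype.ext h.symm)
  obtain ⟨k, hk⟩ := (IsPGroup.iff_orderOf.mp hP) (b : P)
  have hk0 : k ≠ 0 := by
    rintro rfl
    rw [pow_zero] at hk
    exact hb1' (orderOf_eq_one_iff.mp hk)
  refine ⟨(b : P) ^ p ^ (k - 1), K.pow_mem b.2 _, (center P).pow_mem hbc _, ?_, ?_⟩
  · intro h
    have h2 := orderOf_dvd_of_pow_eq_one h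
    rw [hk] at h2
    have h3 := (Nat.pow_dvd_pow_iff_le_right hp.out.one_lt).mp h2
    omega
  · rw [← pow_mul, ← pow_succ, Nat.sub_add_cancel (Nat.one_le_iff_ne_zero.mpr hk0), ← hk]
    exact pow_orderOf_eq_one _

/-- At most `n` homomorphisms are necessary in order to get a trivial common kernel. -/
theorem exists_family (p : ℕ) [hp : Fact p.Prime] {n h : ℕ} (hh : h = (n - 1) / 2) (P : Type)
    [Group P] (hP : Nat.card P = p ^ n)
    (S : Sylow p (Wr (rootsOfUnity (p ^ n) ℂ) (Fin (p ^ h)))) (i : ℕ) (hi : i ≤ n) :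
    ∃ f : Fin i → (P →* S), Nat.card (⨅ j, (f j).ker : Subgroup P) ≤ p ^ (n - i) := by
  have hPf : Finite P := Nat.finite_of_card_ne_zero (by
    rw [hP]; exact pow_ne_zero _ hp.out.ne_zero)
  have hPp : IsPGroup p P := IsPGroup.of_card hP
  induction i with
  | zero =>
    refine ⟨fun j => 1, ?_⟩
    have : (⨅ j : Fin 0, ((fun j => (1 : P →* S)) j).ker : Subgroup P) = ⊤ := by
      simp
    rw [this, Subgroup.card_top, hP]
    simp
  | succ i ih =>
    obtain ⟨f, hf⟩ := ih (by omega)
    set K : Subgroup P := ⨅ j, (f j).ker with hK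
    have hKn : K.Normal := by
      rw [hK]
      exact Subgroup.normal_iInf_normal (fun j => (f j).normal_ker)
    by_cases hK1 : K = ⊥
    · refine ⟨Fin.snoc f 1, ?_⟩
      have h1 : (⨅ j, ((Fin.snoc f 1 : Fin (i + 1) → (P →* S)) j).ker : Subgroup P) ≤ K := by
        rw [hK]
        refine le_iInf fun j => ?_
        refine (iInf_le _ j.castSucc).trans ?_
        rw [Fin.snoc_castSucc]
      rw [hK1, le_bot_iff] at h1
      rw [h1, Subgroup.card_bot]
      exact Nat.one_le_pow _ _ hp.out.pos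
    · obtain ⟨z, hzK, hzc, hz1, hzp⟩ := exists_central p hPp K hK1
      obtain ⟨g, hg⟩ := exists_hom p hh P hP hzc hz1 hzp S
      refine ⟨Fin.snoc f g, ?_⟩
      set K' : Subgroup P := ⨅ j, ((Fin.snoc f g : Fin (i + 1) → (P →* S)) j).ker with hK'
      have h1 : K' ≤ K := by
        rw [hK, hK']
        refine le_iInf fun j => ?_
        refine (iInf_le _ j.castSucc).trans ?_
        rw [Fin.snoc_castSucc]
      have h2 : z ∉ K' := by
        intro hz
        have h3 : K' ≤ ((Fin.snoc f g : Fin (i + 1) → (P →* S)) (Fin.last i)).ker :=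
          iInf_le _ _
        rw [Fin.snoc_last] at h3
        exact hg (h3 hz)
      have h4 : Nat.card K' < Nat.card K := by
        apply lt_of_le_of_ne
        · exact Nat.card_le_card_of_injective _ (Subgroup.inclusion_injective h1)
        · intro heq
          have := Subgroup.eq_of_le_of_card_ge h1 heq.ge
          rw [this] at h2
          exact h2 hzK
      obtain ⟨a, ha⟩ := (IsPGroup.iff_card).mp (hPp.to_subgroup K')
      obtain ⟨b, hb⟩ := (IsPGroup.iff_card).mp (hPp.to_subgroup K)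
      rw [ha, hb] at h4
      rw [hb] at hf
      have h5 := (Nat.pow_lt_pow_iff_right hp.out.one_lt).mp h4
      have h6 := (Nat.pow_le_pow_iff_right hp.out.one_lt).mp hf
      rw [ha]
      exact Nat.pow_le_pow_right hp.out.pos (by omega)

/-- the exponent of `p` in the order of the wreath product -/
theorem factorization_le (p : ℕ) [hp : Fact p.Prime] (n N : ℕ) :
    (Nat.card (Wr (rootsOfUnity (p ^ n) ℂ) (Fin N))).factorization p ≤ (n + 1) * N := by
  have : NeZero (p ^ n) := ⟨pow_ne_zero _ hp.out.ne_zero⟩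
  have hc : Nat.card (rootsOfUnity (p ^ n) ℂ) = p ^ n := Complex.card_rootsOfUnity _
  have hf : Finite (rootsOfUnity (p ^ n) ℂ) := inferInstance
  rw [card_Wr, hc, Nat.factorization_mul (pow_ne_zero _ (pow_ne_zero _ hp.out.ne_zero))
    (Nat.factorial_ne_zero N), ← pow_mul]
  simp only [Finsupp.coe_add, Pi.add_apply]
  rw [Nat.factorization_pow]
  simp only [Finsupp.coe_smul, Pi.smul_apply, smul_eq_mul, hp.out.factorization_self, mul_one]
  have h1 : (N.factorial).factorization p ≤ N := by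
    rw [Nat.factorization_def _ hp.out]
    have h2 := sub_one_mul_padicValNat_factorial (p := p) N
    have h3 : 1 ≤ p - 1 := by have := hp.out.two_le; omega
    calc padicValNat p N.factorial ≤ (p - 1) * padicValNat p N.factorial :=
          Nat.le_mul_of_pos_left _ h3
      _ = N - (p.digits N).sum := h2
      _ ≤ N := Nat.sub_le _ _
  calc n * N + (N.factorial).factorization p ≤ n * N + N := Nat.add_le_add_left h1 _
    _ = (n + 1) * N := by ring

/-- **Upper bound.** -/
theorem exists_universal (p : ℕ) [hp : Fact p.Prime] (n : ℕ) :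
    ∃ m ≤ n * (n + 1) * p ^ ((n - 1) / 2), ∃ (U : Type) (_ : Group U), Nat.card U = p ^ m ∧
      ∀ (P : Type) [Group P], Nat.card P = p ^ n → ∃ φ : P →* U, Function.Injective φ := by
  obtain ⟨h, hh⟩ : ∃ h, h = (n - 1) / 2 := ⟨_, rfl⟩
  rw [← hh]
  have : NeZero (p ^ n) := ⟨pow_ne_zero _ hp.out.ne_zero⟩
  have hf : Finite (rootsOfUnity (p ^ n) ℂ) := inferInstance
  let S : Sylow p (Wr (rootsOfUnity (p ^ n) ℂ) (Fin (p ^ h))) := default
  have hS := S.card_eq_multiplicity
  have hv := factorization_le p n (p ^ h)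
  set v := (Nat.card (Wr (rootsOfUnity (p ^ n) ℂ) (Fin (p ^ h)))).factorization p with hvdef
  refine ⟨v * n, ?_, Fin n → (S : Subgroup (Wr (rootsOfUnity (p ^ n) ℂ) (Fin (p ^ h)))),
    inferInstance, ?_, ?_⟩
  · calc v * n ≤ ((n + 1) * p ^ h) * n := Nat.mul_le_mul_right _ hv
      _ = n * (n + 1) * p ^ h := by ring
  · rw [Nat.card_fun, hS, Nat.card_fin, ← pow_mul]
  · intro P _ hP
    obtain ⟨f, hf⟩ := exists_family p hh P hP S n le_rfl
    have hPf : Finite P := Nat.finite_of_card_ne_zero (by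
      rw [hP]; exact pow_ne_zero _ hp.out.ne_zero)
    refine ⟨MonoidHom.pi f, ?_⟩
    rw [← MonoidHom.ker_eq_bot_iff]
    have h1 : (MonoidHom.pi f).ker = ⨅ j, (f j).ker := by
      ext x
      simp only [MonoidHom.mem_ker, Subgroup.mem_iInf]
      constructor
      · intro h j
        exact congrFun h j
      · intro h
        funext j
        exact h j
    rw [h1, ← Subgroup.card_eq_one]
    have h2 : 0 < Nat.card (⨅ j, (f j).ker : Subgroup P) := Nat.card_pos
    rw [Nat.sub_self, pow_zero] at hf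
    omega

end Pool.Agent.Helper42.UP
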